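import Pool.Agent.Lib.MP_28303a_al.WR.Iface

/-! # Rows over `A[t, t⁻¹]`: cutting off, windows; modules represented by matrices -/

set_option autoImplicit false
set_option linter.all false

namespace Pool.Agent.NegK.WR.H30

universe u v

open Matrix

section

variable {A : Type u} [Ring A] {ι κ : Type}

/-- The part of a row in the degrees satisfying `p`. -/
noncomputable def cut (p : ℤ → Prop) [DecidablePred p] :
    (ι → LaurentPolynomial A) →ₗ[A] (ι → LaurentPolynomial A) where
  toFun y := fun i => AddMonoidAlgebra.ofCoeff ((y i).coeff.filter p)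
  map_add' x y := by
    funext i
    show AddMonoidAlgebra.ofCoeff (((x i) + (y i)).coeff.filter p) = _
    rw [AddMonoidAlgebra.coeff_add, Finsupp.filter_add]
    rfl
  map_smul' r y := by
    funext i
    show AddMonoidAlgebra.ofCoeff ((r • (y i)).coeff.filter p) = _
    rw [AddMonoidAlgebra.coeff_smul, Finsupp.filter_smul]
    rfl

theorem cut_coeff (p : ℤ → Prop) [DecidablePred p] (y : ι → LaurentPolynomial A) (i : ι) (c : ℤ) :
    (cut p y i).coeff c = if p c then (y i).coeff c else 0 := by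
  show ((y i).coeff.filter p) c = _
  exact Finsupp.filter_apply _ _ _

theorem row_ext {x y : ι → LaurentPolynomial A} (h : ∀ i c, (x i).coeff c = (y i).coeff c) :
    x = y := by
  funext i
  exact AddMonoidAlgebra.coeff_injective (Finsupp.ext (h i))

/-- The window of the coefficients of degrees `a, ..., a + n - 1`. -/
noncomputable def prj (a : ℤ) (n : ℕ) : (ι → LaurentPolynomial A) →ₗ[A] (ι × Fin n → A) where
  toFun y := fun x => (y x.1).coeff (a + (x.2 : ℕ))
  map_add' x y := rfl
  map_smul' r y := rfl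

theorem prj_apply (a : ℤ) (n : ℕ) (y : ι → LaurentPolynomial A) (x : ι × Fin n) :
    prj a n y x = (y x.1).coeff (a + (x.2 : ℕ)) := rfl

/-- The row with given coefficients in the degrees `a, ..., a + n - 1`. -/
noncomputable def emb (a : ℤ) (n : ℕ) : (ι × Fin n → A) →ₗ[A] (ι → LaurentPolynomial A) where
  toFun v := fun i => ∑ t : Fin n, AddMonoidAlgebra.single (a + (t : ℕ)) (v (i, t))
  map_add' x y := by
    funext i
    show ∑ t : Fin n, AddMonoidAlgebra.single (a + (t : ℕ)) (x (i, t) + y (i, t)) = _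
    simp only [AddMonoidAlgebra.single_add, Finset.sum_add_distrib]
    rfl
  map_smul' r y := by
    funext i
    show ∑ t : Fin n, AddMonoidAlgebra.single (a + (t : ℕ)) (r • y (i, t)) = _
    rw [RingHom.id_apply, Pi.smul_apply, Finset.smul_sum]
    simp only [AddMonoidAlgebra.smul_single]

theorem emb_apply (a : ℤ) (n : ℕ) (v : ι × Fin n → A) (i : ι) :
    emb a n v i = ∑ t : Fin n, AddMonoidAlgebra.single (a + (t : ℕ)) (v (i, t)) := rfl

theorem emb_coeff (a : ℤ) (n : ℕ) (v : ι × Fin n → A) (i : ι) (c : ℤ) :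
    (emb a n v i).coeff c = ∑ t : Fin n, if a + (t : ℕ) = c then v (i, t) else 0 := by
  classical
  rw [emb_apply, AddMonoidAlgebra.coeff_sum, Finsupp.finsetSum_apply]
  refine Finset.sum_congr rfl fun t _ => ?_
  rw [AddMonoidAlgebra.coeff_single, Finsupp.single_apply]

theorem prj_emb (a : ℤ) (n : ℕ) (v : ι × Fin n → A) : prj a n (emb a n v) = v := by
  classical
  funext x
  obtain ⟨i, t⟩ := x
  rw [prj_apply, emb_coeff]
  have h : ∀ s : Fin n, (if a + ((s : ℕ) : ℤ) = a + ((t : ℕ) : ℤ) then v (i, s) else 0) =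
      if s = t then v (i, s) else 0 := by
    intro s
    by_cases hs : s = t
    · subst hs; simp
    · rw [if_neg hs, if_neg]
      intro h
      apply hs
      apply Fin.ext
      omega
  simp only [h]
  simp

theorem emb_prj (a : ℤ) (n : ℕ) (y : ι → LaurentPolynomial A) :
    emb a n (prj a n y) = cut (fun c => a ≤ c ∧ c < a + n) y := by
  classical
  refine row_ext fun i c => ?_
  rw [emb_coeff, cut_coeff]
  by_cases hc : a ≤ c ∧ c < a + n
  · rw [if_pos hc]
    obtain ⟨h1, h2⟩ := hc
    have hlt : (c - a).toNat < n := by omega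
    rw [Finset.sum_eq_single (⟨(c - a).toNat, hlt⟩ : Fin n)]
    · have h3 : a + (((c - a).toNat : ℕ) : ℤ) = c := by omega
      rw [if_pos (by simpa using h3), prj_apply]
      show (y i).coeff (a + (((c - a).toNat : ℕ) : ℤ)) = _
      rw [h3]
    · intro s _ hs
      rw [if_neg]
      intro h
      apply hs
      apply Fin.ext
      show (s : ℕ) = (c - a).toNat
      omega
    · intro h
      exact absurd (Finset.mem_univ _) h
  · rw [if_neg hc]
    refine Finset.sum_eq_zero fun s _ => if_neg ?_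
    intro h
    apply hc
    have := s.2
    omega

theorem mem_Ge {m : ℤ} {y : ι → LaurentPolynomial A} :
    y ∈ Ge A ι m ↔ ∀ i, ∀ c < m, (y i).coeff c = 0 := Iff.rfl

theorem cut_mem_Ge (m : ℤ) (y : ι → LaurentPolynomial A) :
    cut (fun c => m ≤ c) y ∈ Ge A ι m := by
  intro i c hc
  rw [cut_coeff, if_neg (not_le.2 hc)]

theorem cut_eq_self {m : ℤ} {y : ι → LaurentPolynomial A} (hy : y ∈ Ge A ι m) :
    cut (fun c => m ≤ c) y = y := by
  refine row_ext fun i c => ?_
  rw [cut_coeff]
  by_cases hc : m ≤ c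
  · rw [if_pos hc]
  · rw [if_neg hc, hy i c (not_le.1 hc)]

theorem coeff_mul_ne_zero {x y : LaurentPolynomial A} {g : ℤ} (h : (x * y).coeff g ≠ 0) :
    ∃ a b, x.coeff a ≠ 0 ∧ y.coeff b ≠ 0 ∧ a + b = g := by
  classical
  rw [AddMonoidAlgebra.coeff_mul] at h
  by_contra hc
  push Not at hc
  refine h ?_
  refine Finset.sum_eq_zero fun a ha => Finset.sum_eq_zero fun b hb => ?_
  exact if_neg (hc a b (Finsupp.mem_support_iff.1 ha) (Finsupp.mem_support_iff.1 hb))

theorem vecMul_mem [Fintype ι] {m : ℕ} {α : Matrix ι κ (LaurentPolynomial A)} (hα : DegGe m α)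
    {c : ℤ} {y : ι → LaurentPolynomial A} (hy : y ∈ Ge A ι c) : y ᵥ* α ∈ Ge A κ (c - m) := by
  intro j d hd
  rw [Matrix.vecMul, dotProduct, AddMonoidAlgebra.coeff_sum, Finsupp.finsetSum_apply]
  refine Finset.sum_eq_zero fun i _ => ?_
  by_contra hne
  obtain ⟨a, b, ha, hb, hab⟩ := coeff_mul_ne_zero hne
  have h1 : c ≤ a := by
    by_contra hlt
    exact ha (hy i a (not_le.1 hlt))
  have h2 : -(m : ℤ) ≤ b := by
    by_contra hlt
    exact hb (hα i j b (not_le.1 hlt))
  omega

/-- Windows of products. -/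
theorem prj_emb_mul [Fintype ι] (a b : ℤ) (n n' : ℕ) (α : Matrix ι κ (LaurentPolynomial A))
    (v : ι × Fin n → A) (x : κ × Fin n') :
    prj b n' ((emb a n v) ᵥ* α) x =
      ∑ y : ι × Fin n, v y * (α y.1 x.1).coeff (b + (x.2 : ℕ) - a - (y.2 : ℕ)) := by
  classical
  rw [prj_apply, Matrix.vecMul, dotProduct, AddMonoidAlgebra.coeff_sum, Finsupp.finsetSum_apply,
    Fintype.sum_prod_type]
  refine Finset.sum_congr rfl fun i _ => ?_
  rw [emb_apply, Finset.sum_mul, AddMonoidAlgebra.coeff_sum, Finsupp.finsetSum_apply]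
  refine Finset.sum_congr rfl fun t _ => ?_
  rw [AddMonoidAlgebra.coeff_single_mul_apply]
  congr 2
  ring

/-- A module which is a retract of `A^κ` with idempotent `e`. -/
theorem mc_of_maps {M : Type v} [AddCommGroup M] [Module A M] [Fintype κ] [DecidableEq κ]
    (e : Matrix κ κ A) (f : M →ₗ[A] (κ → A)) (g : (κ → A) →ₗ[A] M)
    (h1 : ∀ x, g (f x) = x) (h2 : ∀ v, f (g v) = v ᵥ* e) :
    ∃ h : e * e = e, mc A M = mcls e h := by
  have he : e * e = e := by
    refine Matrix.ext_of_single_vecMul fun i => ?_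
    rw [← Matrix.vecMul_vecMul, ← h2, ← h2, h1, h2]
  refine ⟨he, ?_⟩
  have hrep : H50.Rep M (toIdem e he) := by
    let σ := Fintype.equivFin κ
    refine ⟨(LinearMap.funLeft A A σ.symm) ∘ₗ f, g ∘ₗ (LinearMap.funLeft A A σ), ?_, ?_⟩
    · refine LinearMap.ext fun x => ?_
      show g (fun k => f x (σ.symm (σ k))) = x
      simp only [Equiv.symm_apply_apply]
      exact h1 x
    · refine LinearMap.ext fun v => ?_
      funext k
      show f (g (fun k => v (σ k))) (σ.symm k) = _
      rw [h2, Matrix.toLinearMapRight'_apply]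
      show ∑ j, v (σ j) * e j (σ.symm k) = ∑ j, v j * e (σ.symm j) (σ.symm k)
      exact Fintype.sum_equiv σ _ _ fun j => by rw [Equiv.symm_apply_apply]
  exact mc_of_rep hrep

end

end Pool.Agent.NegK.WR.H30
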