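import Pool.Agent.Lib.MP_28303a_al.WR.H30.Rows

/-! # COK: the cokernel of an invertible matrix is represented by an explicit idempotent -/

set_option autoImplicit false
set_option linter.all false

namespace Pool.Agent.NegK.WR.H30

universe u v

open Matrix

section

variable {A : Type u} [Ring A] {ι : Type}

theorem emb_mem' (a : ℤ) (n : ℕ) (v : ι × Fin n → A) : emb a n v ∈ Ge A ι a := by
  intro i c hc
  rw [emb_coeff]
  refine Finset.sum_eq_zero fun t _ => if_neg ?_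
  omega

theorem cut_ge_split (b : ℤ) {a : ℤ} (n : ℕ) (hb : b = a + n) {y : ι → LaurentPolynomial A}
    (hy : y ∈ Ge A ι a) : emb a n (prj a n y) + cut (fun c => b ≤ c) y = y := by
  rw [emb_prj]
  refine row_ext fun i c => ?_
  show (cut (fun c => a ≤ c ∧ c < a + n) y i + cut (fun c => b ≤ c) y i).coeff c = _
  rw [AddMonoidAlgebra.coeff_add, Finsupp.add_apply, cut_coeff, cut_coeff]
  by_cases h1 : a ≤ c
  · by_cases h2 : c < a + n
    · rw [if_pos ⟨h1, h2⟩, if_neg (by omega), add_zero]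
    · rw [if_neg (fun h => h2 h.2), if_pos (by omega), zero_add]
  · rw [if_neg (fun h => h1 h.1), if_neg (by omega), add_zero, hy i c (not_le.1 h1)]

/-- COK. -/
theorem cok : CokStatement.{u} := by
  intro A _ ι _ _ α β m K h1 h2 hα hβ
  set L : Submodule A (ι → LaurentPolynomial A) := (Ge A ι 0).map (rmul α) with hL
  have hab : ∀ y : ι → LaurentPolynomial A, (y ᵥ* α) ᵥ* β = y := by
    intro y
    rw [Matrix.vecMul_vecMul, h1, Matrix.vecMul_one]
  have hba : ∀ y : ι → LaurentPolynomial A, (y ᵥ* β) ᵥ* α = y := by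
    intro y
    rw [Matrix.vecMul_vecMul, h2, Matrix.vecMul_one]
  -- the two maps
  have hprj0 : ∀ y ∈ Ge A ι 0, prj (A := A) (ι := ι) (-(m : ℤ) - K) (m + K) y = 0 := by
    intro y hy
    funext x
    rw [prj_apply]
    refine hy x.1 _ ?_
    have := x.2.2
    push_cast at this ⊢
    omega
  let φ : (ι → LaurentPolynomial A) →ₗ[A] (ι × Fin (m + K) → A) :=
    (prj (-(m : ℤ) - K) (m + K)) ∘ₗ (rmul β)
  have hφ : L ≤ LinearMap.ker φ := by
    rintro _ ⟨y, hy, rfl⟩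
    rw [LinearMap.mem_ker]
    show prj (-(m : ℤ) - K) (m + K) ((y ᵥ* α) ᵥ* β) = 0
    rw [hab]
    exact hprj0 y hy
  let ψ : (ι × Fin (m + K) → A) →ₗ[A] (ι → LaurentPolynomial A) :=
    (cut (fun c => -(m : ℤ) ≤ c)) ∘ₗ (rmul α) ∘ₗ (emb (-(m : ℤ) - K) (m + K))
  have hψ : ∀ v, ψ v ∈ Ge A ι (-m) := fun v => cut_mem_Ge _ _
  let f : ((Ge A ι (-m)).map L.mkQ) →ₗ[A] (ι × Fin (m + K) → A) :=
    (L.liftQ φ hφ) ∘ₗ Submodule.subtype _
  let g : (ι × Fin (m + K) → A) →ₗ[A] ((Ge A ι (-m)).map L.mkQ) :=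
    (L.mkQ ∘ₗ ψ).codRestrict _ (fun v => ⟨ψ v, hψ v, rfl⟩)
  refine mc_of_maps (tU α m K * tV β m K) f g ?_ ?_
  · rintro ⟨_, y, hy, rfl⟩
    refine Subtype.ext ?_
    show L.mkQ (ψ (φ y)) = L.mkQ y
    have hyβ : y ᵥ* β ∈ Ge A ι (-(m : ℤ) - K) := vecMul_mem hβ hy
    have hsplit := cut_ge_split 0 (a := -(m : ℤ) - K) (m + K) (by push_cast; ring) hyβ
    set w := cut (fun c => (0 : ℤ) ≤ c) (y ᵥ* β) with hw
    have hw0 : w ∈ Ge A ι 0 := cut_mem_Ge _ _
    have h3 : ψ (φ y) = y - w ᵥ* α := by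
      show cut (fun c => -(m : ℤ) ≤ c)
        ((emb (-(m : ℤ) - K) (m + K) (prj (-(m : ℤ) - K) (m + K) (y ᵥ* β))) ᵥ* α) = _
      have h4 : emb (-(m : ℤ) - K) (m + K) (prj (-(m : ℤ) - K) (m + K) (y ᵥ* β)) =
          y ᵥ* β - w := eq_sub_of_add_eq hsplit
      rw [h4, Matrix.sub_vecMul, hba]
      refine cut_eq_self ?_
      refine Submodule.sub_mem _ hy ?_
      have h5 := vecMul_mem hα hw0
      rwa [zero_sub] at h5
    rw [h3, Submodule.mkQ_apply, Submodule.mkQ_apply, Submodule.Quotient.eq]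
    have h6 : y - w ᵥ* α - y = -(w ᵥ* α) := by abel
    rw [h6]
    exact L.neg_mem ⟨w, hw0, rfl⟩
  · intro v
    show prj (-(m : ℤ) - K) (m + K) ((cut (fun c => -(m : ℤ) ≤ c)
      ((emb (-(m : ℤ) - K) (m + K) v) ᵥ* α)) ᵥ* β) = _
    set z := (emb (-(m : ℤ) - K) (m + K) v) ᵥ* α with hz
    have hc : cut (fun c => -(m : ℤ) ≤ c) z ∈ Ge A ι (-m) := cut_mem_Ge _ _
    have hsplit := cut_ge_split (K : ℤ) (a := -(m : ℤ)) (m + K) (by push_cast; ring) hc
    have hp : prj (-(m : ℤ)) (m + K) (cut (fun c => -(m : ℤ) ≤ c) z) =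
        prj (-(m : ℤ)) (m + K) z := by
      funext x
      rw [prj_apply, prj_apply, cut_coeff, if_pos (by omega)]
    rw [hp] at hsplit
    rw [← hsplit, Matrix.add_vecMul, map_add]
    have h0 : prj (-(m : ℤ) - K) (m + K) ((cut (fun c => (K : ℤ) ≤ c)
        (cut (fun c => -(m : ℤ) ≤ c) z)) ᵥ* β) = 0 := by
      refine hprj0 _ ?_
      have h5 := vecMul_mem hβ (cut_mem_Ge (K : ℤ) (cut (fun c => -(m : ℤ) ≤ c) z))
      rwa [sub_self] at h5
    rw [h0, add_zero, ← Matrix.vecMul_vecMul]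
    have hU : prj (-(m : ℤ)) (m + K) z = v ᵥ* (tU α m K) := by
      funext x
      rw [hz, prj_emb_mul]
      show _ = ∑ y, v y * (α y.1 x.1).coeff ((K : ℤ) + (x.2 : ℕ) - (y.2 : ℕ))
      refine Finset.sum_congr rfl fun y _ => ?_
      congr 2
      ring
    rw [hU]
    funext x
    rw [prj_emb_mul]
    show _ = ∑ y, (v ᵥ* (tU α m K)) y * (β y.1 x.1).coeff ((x.2 : ℕ) - (K : ℤ) - (y.2 : ℕ))
    refine Finset.sum_congr rfl fun y _ => ?_
    congr 2
    ring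

end

end Pool.Agent.NegK.WR.H30
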