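import Pool.Agent.Lib.MP_28303a_al.WR.H30.Rows

/-! # GEQ: quotients of the modules of rows of degree at least `m` -/

set_option autoImplicit false
set_option linter.all false

namespace Pool.Agent.NegK.WR.H30

universe u v

open Matrix

section

variable {A : Type u} [Ring A] {ι : Type}

theorem laurent_free : Module.Free A (LaurentPolynomial A) :=
  Module.Free.of_equiv (AddMonoidAlgebra.coeffLinearEquiv A (S := A) (M := ℤ)).symm

theorem row_projective [Finite ι] : Module.Projective A (ι → LaurentPolynomial A) := by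
  haveI : Module.Free A (LaurentPolynomial A) := laurent_free
  infer_instance

theorem ge_mono {a b : ℤ} (h : a ≤ b) : Ge A ι b ≤ Ge A ι a :=
  fun _ hy i c hc => hy i c (lt_of_lt_of_le hc h)

theorem quot_projective [Finite ι] (m : ℤ) :
    Module.Projective A ((ι → LaurentPolynomial A) ⧸ Ge A ι m) := by
  haveI : Module.Projective A (ι → LaurentPolynomial A) := row_projective
  refine Module.Projective.of_split
    ((Ge A ι m).liftQ (cut (fun c => c < m)) ?_) (Ge A ι m).mkQ ?_
  · intro y hy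
    rw [LinearMap.mem_ker]
    refine row_ext fun i c => ?_
    rw [cut_coeff]
    by_cases hc : c < m
    · rw [if_pos hc, hy i c hc]; rfl
    · rw [if_neg hc]; rfl
  · refine LinearMap.ext fun x => ?_
    obtain ⟨y, rfl⟩ := Submodule.mkQ_surjective _ x
    show (Ge A ι m).mkQ (cut (fun c => c < m) y) = (Ge A ι m).mkQ y
    rw [Submodule.mkQ_apply, Submodule.mkQ_apply, Submodule.Quotient.eq]
    intro i c hc
    show (cut (fun c => c < m) y i - y i).coeff c = 0
    rw [AddMonoidAlgebra.coeff_sub, Finsupp.sub_apply, cut_coeff, if_pos hc, sub_self]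

/-- The window gives the quotient. -/
theorem quot_eq (a : ℤ) (n : ℕ) {y : ι → LaurentPolynomial A} (hy : y ∈ Ge A ι a) :
    (Ge A ι (a + n)).mkQ (emb a n (prj a n y)) = (Ge A ι (a + n)).mkQ y := by
  rw [Submodule.mkQ_apply, Submodule.mkQ_apply, Submodule.Quotient.eq, emb_prj]
  intro i c hc
  show (cut (fun c => a ≤ c ∧ c < a + n) y i - y i).coeff c = 0
  rw [AddMonoidAlgebra.coeff_sub, Finsupp.sub_apply, cut_coeff]
  by_cases h : a ≤ c
  · rw [if_pos ⟨h, hc⟩, sub_self]
  · rw [if_neg (fun hh => h hh.1), hy i c (not_le.1 h), sub_self]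

theorem emb_mem (a : ℤ) (n : ℕ) (v : ι × Fin n → A) : emb a n v ∈ Ge A ι a := by
  intro i c hc
  rw [emb_coeff]
  refine Finset.sum_eq_zero fun t _ => if_neg ?_
  omega

theorem quot_finite [Finite ι] (a b : ℤ) : Module.Finite A ((Ge A ι a).map (Ge A ι b).mkQ) := by
  by_cases hab : a ≤ b
  · obtain ⟨n, hn⟩ : ∃ n : ℕ, b = a + n := ⟨(b - a).toNat, by omega⟩
    subst hn
    let f : (ι × Fin n → A) →ₗ[A] ((Ge A ι a).map (Ge A ι (a + n)).mkQ) :=
      ((Ge A ι (a + n)).mkQ ∘ₗ emb a n).codRestrict _ (fun v => ⟨emb a n v, emb_mem a n v, rfl⟩)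
    refine Module.Finite.of_surjective f ?_
    rintro ⟨_, y, hy, rfl⟩
    exact ⟨prj a n y, Subtype.ext (quot_eq a n hy)⟩
  · have h : (Ge A ι a).map (Ge A ι b).mkQ = ⊥ := by
      rw [eq_bot_iff]
      rintro _ ⟨y, hy, rfl⟩
      rw [Submodule.mem_bot, Submodule.mkQ_apply, Submodule.Quotient.mk_eq_zero]
      exact ge_mono (not_le.1 hab).le hy
    rw [h]
    infer_instance

theorem mcls_one_prod [Fintype ι] [DecidableEq ι] (n : ℕ) :
    mcls (1 : Matrix (ι × Fin n) (ι × Fin n) A) (one_mul 1) =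
      n • mcls (1 : Matrix ι ι A) (one_mul 1) := by
  induction n with
  | zero =>
    rw [zero_smul]
    have h : (1 : Matrix (ι × Fin 0) (ι × Fin 0) A) = 0 := by
      ext ⟨i, t⟩ j
      exact t.elim0
    rw [mcls_congr (one_mul 1) h]
    exact mcls_zero
  | succ n ih =>
    rw [succ_nsmul, ← ih, ← mcls_blocks (one_mul 1) (one_mul 1)]
    let σ : ((ι × Fin n) ⊕ ι) ≃ (ι × Fin (n + 1)) :=
      { toFun := Sum.elim (fun x => (x.1, x.2.castSucc)) (fun i => (i, Fin.last n))
        invFun := fun x => if h : (x.2 : ℕ) < n then Sum.inl (x.1, ⟨x.2, h⟩) else Sum.inr x.1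
        left_inv := by
          rintro (⟨i, t⟩ | i)
          · simp
          · simp
        right_inv := by
          rintro ⟨i, t⟩
          by_cases h : (t : ℕ) < n
          · simp [h]
          · have ht : t = Fin.last n := by
              apply Fin.ext
              have := t.2
              show (t : ℕ) = n
              omega
            subst ht
            simp }
    refine mcls_eq _ _ ((1 : Matrix (ι × Fin (n + 1)) (ι × Fin (n + 1)) A).submatrix id σ)
      ((1 : Matrix (ι × Fin (n + 1)) (ι × Fin (n + 1)) A).submatrix σ id) ?_ ?_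
    · rw [Matrix.submatrix_mul_equiv, one_mul, Matrix.submatrix_id_id]
    · have h := Matrix.submatrix_mul_equiv (1 : Matrix (ι × Fin (n + 1)) (ι × Fin (n + 1)) A)
        (1 : Matrix (ι × Fin (n + 1)) (ι × Fin (n + 1)) A) σ (Equiv.refl _) σ
      refine h.trans ?_
      rw [one_mul, Matrix.submatrix_one_equiv, Matrix.fromBlocks_one]

/-- GEQ. -/
theorem geq : GeqStatement.{u} := by
  intro A _ ι _ _
  refine ⟨fun m => quot_projective m, fun a b => quot_finite a b, fun a m => ?_⟩
  have hker : (Ge A ι (a + m)) ≤ LinearMap.ker (prj (A := A) (ι := ι) a m) := by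
    intro y hy
    rw [LinearMap.mem_ker]
    funext x
    rw [prj_apply]
    refine hy x.1 _ ?_
    have := x.2.2
    omega
  let f : ((Ge A ι a).map (Ge A ι (a + m)).mkQ) →ₗ[A] (ι × Fin m → A) :=
    ((Ge A ι (a + m)).liftQ (prj a m) hker) ∘ₗ Submodule.subtype _
  let g : (ι × Fin m → A) →ₗ[A] ((Ge A ι a).map (Ge A ι (a + m)).mkQ) :=
      ((Ge A ι (a + m)).mkQ ∘ₗ emb a m).codRestrict _ (fun v => ⟨emb a m v, emb_mem a m v, rfl⟩)
  obtain ⟨h, hh⟩ := mc_of_maps (1 : Matrix (ι × Fin m) (ι × Fin m) A) f g (by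
    rintro ⟨_, y, hy, rfl⟩
    exact Subtype.ext (quot_eq a m hy)) (by
    intro v
    show prj a m (emb a m v) = _
    rw [prj_emb, Matrix.vecMul_one])
  unfold rel
  rw [hh, ← mcls_one_prod]

end

end Pool.Agent.NegK.WR.H30
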